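import Pool.Agent.H98.KS.Targets2

/-!
Module M4 of ks_modules: fourth moment of the complete sums.
-/

set_option autoImplicit false

open Finset
open scoped BigOperators ComplexConjugate

noncomputable section

namespace Pool.Agent.H55.KS

open Pool.Agent.H98.KS

private lemma sum_range_zmod {M : Type*} [AddCommMonoid M] (p : ℕ) [NeZero p] (f : ℕ → M) :
    ∑ x ∈ range p, f x = ∑ y : ZMod p, f y.val := by
  refine Finset.sum_bij' (fun x _ => (x : ZMod p)) (fun y _ => y.val) (fun _ _ => mem_univ _)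
    (fun y _ => mem_range.mpr (ZMod.val_lt y)) ?_ ?_ ?_
  · intro x hx
    exact ZMod.val_cast_of_lt (mem_range.mp hx)
  · intro y _
    exact ZMod.natCast_zmod_val y
  · intro x hx
    show f x = f ((x : ZMod p)).val
    rw [ZMod.val_cast_of_lt (mem_range.mp hx)]

private lemma ee_eq (p : ℕ) [NeZero p] (m : ℤ) :
    ee ((m : ℝ) / p) = ZMod.stdAddChar (m : ZMod p) := by
  rw [ZMod.stdAddChar_coe]
  unfold ee
  congr 1
  push_cast
  ring

private lemma SW_eq (k p : ℕ) [NeZero p] (w : ℕ → ℂ) (a b : ℤ) :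
    SW k p w a b = ∑ y : ZMod p, w y.val *
      ZMod.stdAddChar ((a : ZMod p) * y ^ k + (b : ZMod p) * y) := by
  unfold SW
  rw [sum_range_zmod]
  refine Finset.sum_congr rfl fun y _ => ?_
  rw [ee_eq]
  congr 2
  push_cast
  rw [ZMod.natCast_zmod_val]

private lemma parseval (p : ℕ) [Fact p.Prime] {ι : Type*} [Fintype ι] (c : ι → ℂ)
    (u v : ι → ZMod p) (hc : ∀ i, ‖c i‖ ≤ 1) :
    ∑ a : ZMod p, ∑ b : ZMod p, ‖∑ i, c i * ZMod.stdAddChar (a * u i + b * v i)‖ ^ 2 ≤
      (p : ℝ) ^ 2 * ∑ i, ((univ.filter fun j => u j = u i ∧ v j = v i).card : ℝ) := by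
  classical
  have key : ((∑ a : ZMod p, ∑ b : ZMod p,
      ‖∑ i, c i * ZMod.stdAddChar (a * u i + b * v i)‖ ^ 2 : ℝ) : ℂ) =
      ∑ i, ∑ j, c i * conj (c j) * ((if u i - u j = 0 then (p : ℂ) else 0) *
        (if v i - v j = 0 then (p : ℂ) else 0)) := by
    have hs : ∀ d : ZMod p, ∑ a : ZMod p, (ZMod.stdAddChar (a * d) : ℂ) =
        if d = 0 then (p : ℂ) else 0 := by
      intro d
      rw [AddChar.sum_mulShift d (ZMod.isPrimitive_stdAddChar p), ZMod.card]
      split_ifs <;> simp
    push_cast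
    have h1 : ∀ a b : ZMod p,
        ((‖∑ i, c i * ZMod.stdAddChar (a * u i + b * v i)‖ : ℂ)) ^ 2 =
        ∑ i, ∑ j, c i * conj (c j) * (ZMod.stdAddChar (a * (u i - u j)) *
          ZMod.stdAddChar (b * (v i - v j))) := by
      intro a b
      rw [← Complex.mul_conj', map_sum, Finset.sum_mul_sum]
      refine Finset.sum_congr rfl fun i _ => Finset.sum_congr rfl fun j _ => ?_
      have h : (ZMod.stdAddChar (a * (u i - u j)) : ℂ) * ZMod.stdAddChar (b * (v i - v j)) =
          ZMod.stdAddChar (a * u i + b * v i) * ZMod.stdAddChar (-(a * u j + b * v j)) := by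
        rw [← AddChar.map_add_eq_mul, ← AddChar.map_add_eq_mul]
        congr 1
        ring
      rw [map_mul, ← AddChar.map_neg_eq_conj, h]
      ring
    simp_rw [h1]
    rw [show (∑ a : ZMod p, ∑ b : ZMod p, ∑ i, ∑ j, c i * conj (c j) *
        ((ZMod.stdAddChar (a * (u i - u j)) : ℂ) * ZMod.stdAddChar (b * (v i - v j)))) =
        ∑ i, ∑ j, ∑ a : ZMod p, ∑ b : ZMod p, c i * conj (c j) *
        ((ZMod.stdAddChar (a * (u i - u j)) : ℂ) * ZMod.stdAddChar (b * (v i - v j))) from ?_]
    · refine Finset.sum_congr rfl fun i _ => Finset.sum_congr rfl fun j _ => ?_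
      rw [← hs, ← hs, Finset.sum_mul_sum, Finset.mul_sum]
      refine Finset.sum_congr rfl fun a _ => ?_
      rw [Finset.mul_sum]
    · calc _ = ∑ a : ZMod p, ∑ i, ∑ b : ZMod p, ∑ j, c i * conj (c j) *
            ((ZMod.stdAddChar (a * (u i - u j)) : ℂ) * ZMod.stdAddChar (b * (v i - v j))) :=
            Finset.sum_congr rfl fun a _ => Finset.sum_comm
        _ = ∑ i, ∑ a : ZMod p, ∑ b : ZMod p, ∑ j, c i * conj (c j) *
            ((ZMod.stdAddChar (a * (u i - u j)) : ℂ) * ZMod.stdAddChar (b * (v i - v j))) :=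
            Finset.sum_comm
        _ = ∑ i, ∑ a : ZMod p, ∑ j, ∑ b : ZMod p, c i * conj (c j) *
            ((ZMod.stdAddChar (a * (u i - u j)) : ℂ) * ZMod.stdAddChar (b * (v i - v j))) :=
            Finset.sum_congr rfl fun i _ => Finset.sum_congr rfl fun a _ => Finset.sum_comm
        _ = _ := Finset.sum_congr rfl fun i _ => Finset.sum_comm
  have h0 : 0 ≤ ∑ a : ZMod p, ∑ b : ZMod p,
      ‖∑ i, c i * ZMod.stdAddChar (a * u i + b * v i)‖ ^ 2 :=
    Finset.sum_nonneg fun a _ => Finset.sum_nonneg fun b _ => by positivity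
  have h1 : ∑ a : ZMod p, ∑ b : ZMod p,
      ‖∑ i, c i * ZMod.stdAddChar (a * u i + b * v i)‖ ^ 2 =
      ‖((∑ a : ZMod p, ∑ b : ZMod p,
      ‖∑ i, c i * ZMod.stdAddChar (a * u i + b * v i)‖ ^ 2 : ℝ) : ℂ)‖ := by
    rw [Complex.norm_real, Real.norm_of_nonneg h0]
  rw [h1, key]
  refine (norm_sum_le _ _).trans ?_
  rw [Finset.mul_sum]
  refine Finset.sum_le_sum fun i _ => ?_
  refine (norm_sum_le _ _).trans ?_
  rw [Finset.card_filter, Nat.cast_sum, Finset.mul_sum]
  refine Finset.sum_le_sum fun j _ => ?_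
  rw [norm_mul, norm_mul, RCLike.norm_conj]
  have hcc : ‖c i‖ * ‖c j‖ ≤ 1 := mul_le_one₀ (hc i) (norm_nonneg _) (hc j)
  by_cases hu : u j = u i
  · by_cases hv : v j = v i
    · rw [if_pos (by rw [hu, sub_self]), if_pos (by rw [hv, sub_self]), if_pos ⟨hu, hv⟩]
      rw [norm_mul, Complex.norm_natCast]
      push_cast
      nlinarith [sq_nonneg (p : ℝ)]
    · rw [if_neg (c := v i - v j = 0) (by
        intro h
        exact hv (sub_eq_zero.mp h).symm), if_neg (c := u j = u i ∧ v j = v i)
        (fun h => hv h.2)]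
      simp
  · rw [if_neg (c := u i - u j = 0) (by
      intro h
      exact hu (sub_eq_zero.mp h).symm), if_neg (c := u j = u i ∧ v j = v i) (fun h => hu h.1)]
    simp

private lemma count_roots (k p : ℕ) [Fact p.Prime] (hk : 2 ≤ k) (hkp : k < p) (s c : ZMod p)
    (hs : s ≠ 0) : (univ.filter fun x : ZMod p => x ^ k + (s - x) ^ k = c).card ≤ k := by
  classical
  set f : Polynomial (ZMod p) := Polynomial.X ^ k + (Polynomial.C s - Polynomial.X) ^ k -
    Polynomial.C c with hf
  have hk0 : ((k : ℕ) : ZMod p) ≠ 0 := by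
    intro h
    rw [ZMod.natCast_eq_zero_iff] at h
    exact absurd (Nat.le_of_dvd (by omega) h) (by omega)
  have hf0 : f ≠ 0 := by
    intro h
    have h1 : (Polynomial.derivative f).eval 0 = 0 := by rw [h]; simp
    rw [hf] at h1
    simp only [Polynomial.derivative_sub, Polynomial.derivative_add,
      Polynomial.derivative_pow, Polynomial.derivative_C, Polynomial.derivative_X,
      Polynomial.eval_sub, Polynomial.eval_add, Polynomial.eval_mul, Polynomial.eval_pow,
      Polynomial.eval_C, Polynomial.eval_X, Polynomial.eval_neg,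
      zero_sub, sub_zero, mul_neg, mul_one] at h1
    rw [zero_pow (by omega), mul_zero, zero_add, neg_eq_zero] at h1
    rcases mul_eq_zero.mp h1 with h2 | h2
    · exact hk0 h2
    · exact hs (pow_eq_zero_iff (by omega) |>.mp h2)
  have hdeg : f.natDegree ≤ k := by
    rw [hf]
    refine (Polynomial.natDegree_sub_le _ _).trans (max_le ?_ (by simp))
    refine (Polynomial.natDegree_add_le _ _).trans (max_le (Polynomial.natDegree_X_pow_le k) ?_)
    refine Polynomial.natDegree_pow_le.trans ?_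
    have : (Polynomial.C s - Polynomial.X : Polynomial (ZMod p)).natDegree ≤ 1 := by
      refine (Polynomial.natDegree_sub_le _ _).trans (max_le (by simp) Polynomial.natDegree_X_le)
    nlinarith
  calc (univ.filter fun x : ZMod p => x ^ k + (s - x) ^ k = c).card
      ≤ f.roots.toFinset.card := by
        apply Finset.card_le_card
        intro x hx
        rw [mem_filter] at hx
        rw [Multiset.mem_toFinset, Polynomial.mem_roots hf0, Polynomial.IsRoot.def, hf]
        simp [hx.2]
    _ ≤ Multiset.card f.roots := Multiset.toFinset_card_le _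
    _ ≤ f.natDegree := Polynomial.card_roots' f
    _ ≤ k := hdeg

private lemma count_pairs (k p : ℕ) [Fact p.Prime] (hk : 2 ≤ k) (hkp : k < p) (s c : ZMod p) :
    ((univ : Finset (ZMod p × ZMod p)).filter fun j => j.1 ^ k + j.2 ^ k = c ∧
      j.1 + j.2 = s).card ≤ if s = 0 then p else k := by
  classical
  have h1 : ((univ : Finset (ZMod p × ZMod p)).filter fun j => j.1 ^ k + j.2 ^ k = c ∧
      j.1 + j.2 = s).card ≤ (univ.filter fun x : ZMod p => x ^ k + (s - x) ^ k = c).card := by
    apply Finset.card_le_card_of_injOn Prod.fst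
    · intro j hj
      simp only [coe_filter, mem_univ, true_and, Set.mem_ofPred_eq] at hj ⊢
      rw [← hj.2, add_sub_cancel_left]
      exact hj.1
    · intro j hj j' hj' h
      simp only [coe_filter, mem_univ, true_and, Set.mem_ofPred_eq] at hj hj'
      refine Prod.ext h ?_
      have e1 : j.2 = s - j.1 := by rw [← hj.2]; ring
      have e2 : j'.2 = s - j'.1 := by rw [← hj'.2]; ring
      rw [e1, e2, h]
  refine h1.trans ?_
  split_ifs with hs
  · calc _ ≤ (univ : Finset (ZMod p)).card := Finset.card_filter_le _ _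
      _ = p := by rw [Finset.card_univ, ZMod.card]
  · exact count_roots k p hk hkp s c hs

theorem ks_M4 : T_M4 := by
  intro k p w hk hp hkp hw
  have : Fact p.Prime := ⟨hp⟩
  classical
  rw [sum_range_zmod]
  simp_rw [sum_range_zmod p (fun b => ‖SW k p w _ (b : ℤ)‖ ^ 4)]
  have e : ∀ a b : ZMod p, ‖SW k p w (a.val : ℤ) (b.val : ℤ)‖ ^ 4 =
      ‖∑ i : ZMod p × ZMod p, (w i.1.val * w i.2.val) *
        ZMod.stdAddChar (a * (i.1 ^ k + i.2 ^ k) + b * (i.1 + i.2))‖ ^ 2 := by
    intro a b
    have : SW k p w (a.val : ℤ) (b.val : ℤ) ^ 2 = ∑ i : ZMod p × ZMod p,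
        (w i.1.val * w i.2.val) *
        ZMod.stdAddChar (a * (i.1 ^ k + i.2 ^ k) + b * (i.1 + i.2)) := by
      rw [SW_eq, sq, Finset.sum_mul_sum, Fintype.sum_prod_type]
      refine Finset.sum_congr rfl fun x _ => Finset.sum_congr rfl fun y _ => ?_
      dsimp only
      have h : (ZMod.stdAddChar (a * (x ^ k + y ^ k) + b * (x + y)) : ℂ) =
          ZMod.stdAddChar (a * x ^ k + b * x) * ZMod.stdAddChar (a * y ^ k + b * y) := by
        rw [← AddChar.map_add_eq_mul]
        congr 1
        ring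
      rw [h]
      simp only [Int.cast_natCast, ZMod.natCast_zmod_val]
      ring
    rw [← this, norm_pow]
    ring
  simp_rw [e]
  refine (parseval p (fun i : ZMod p × ZMod p => w i.1.val * w i.2.val)
    (fun i => i.1 ^ k + i.2 ^ k) (fun i => i.1 + i.2) (fun i => by
      rw [norm_mul]
      exact mul_le_one₀ (hw _) (norm_nonneg _) (hw _))).trans ?_
  have hcount : ∑ i : ZMod p × ZMod p, (((univ : Finset (ZMod p × ZMod p)).filter
      fun j => j.1 ^ k + j.2 ^ k = i.1 ^ k + i.2 ^ k ∧ j.1 + j.2 = i.1 + i.2).card : ℝ) ≤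
      ((k : ℝ) + 1) * (p : ℝ) ^ 2 := by
    calc _ ≤ ∑ i : ZMod p × ZMod p, ((if i.2 = -i.1 then (p : ℝ) else 0) + k) := by
          refine Finset.sum_le_sum fun i _ => ?_
          have h := count_pairs k p hk hkp (i.1 + i.2) (i.1 ^ k + i.2 ^ k)
          have h' : ((((univ : Finset (ZMod p × ZMod p)).filter
            fun j => j.1 ^ k + j.2 ^ k = i.1 ^ k + i.2 ^ k ∧
            j.1 + j.2 = i.1 + i.2).card : ℕ) : ℝ) ≤
              ((if i.1 + i.2 = 0 then p else k : ℕ) : ℝ) := by
            exact_mod_cast h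
          refine h'.trans ?_
          by_cases hi : i.1 + i.2 = 0
          · rw [if_pos hi, if_pos (eq_neg_of_add_eq_zero_right hi)]
            have : (0 : ℝ) ≤ k := Nat.cast_nonneg k
            linarith
          · rw [if_neg hi]
            split_ifs with h2
            · exact absurd (by rw [h2]; ring) hi
            · simp
      _ = ((k : ℝ) + 1) * (p : ℝ) ^ 2 := by
          rw [Finset.sum_add_distrib, Fintype.sum_prod_type]
          simp only [Finset.sum_ite_eq', mem_univ, if_true, Finset.sum_const, Finset.card_univ,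
            ZMod.card, Fintype.card_prod, nsmul_eq_mul]
          push_cast
          ring
  calc (p : ℝ) ^ 2 * _ ≤ (p : ℝ) ^ 2 * (((k : ℝ) + 1) * (p : ℝ) ^ 2) :=
        mul_le_mul_of_nonneg_left hcount (by positivity)
    _ = ((k : ℝ) + 1) * (p : ℝ) ^ 4 := by ring

end Pool.Agent.H55.KS
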