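import Pool.Agent.H98.KS.Targets2

/-!
Module CU of ks_modules: the square of the cubic sum.
-/

set_option autoImplicit false

open Finset
open scoped BigOperators ComplexConjugate

noncomputable section

namespace Pool.Agent.H55.KS

open Pool.Agent.H98.KS

private lemma sum_range_zmod {M : Type*} [AddCommMonoid M] (p : ℕ) [NeZero p] (f : ℕ → M) :
    ∑ x ∈ range p, f x = ∑ y : ZMod p, f y.val := by
  refine Finset.sum_bij' (fun x _ => (x : ZMod p)) (fun y _ => y.val) (fun _ _ => mem_univ _)
    (fun y _ => mem_range.mpr (ZMod.val_lt y)) ?_ ?_ ?_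
  · intro x hx
    exact ZMod.val_cast_of_lt (mem_range.mp hx)
  · intro y _
    exact ZMod.natCast_zmod_val y
  · intro x hx
    show f x = f ((x : ZMod p)).val
    rw [ZMod.val_cast_of_lt (mem_range.mp hx)]

private lemma ee_eq (p : ℕ) [NeZero p] (m : ℤ) :
    ee ((m : ℝ) / p) = ZMod.stdAddChar (m : ZMod p) := by
  rw [ZMod.stdAddChar_coe]
  unfold ee
  congr 1
  push_cast
  ring

private lemma SW_eq (k p : ℕ) [NeZero p] (w : ℕ → ℂ) (a b : ℤ) :
    SW k p w a b = ∑ y : ZMod p, w y.val *
      ZMod.stdAddChar ((a : ZMod p) * y ^ k + (b : ZMod p) * y) := by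
  unfold SW
  rw [sum_range_zmod]
  refine Finset.sum_congr rfl fun y _ => ?_
  rw [ee_eq]
  congr 2
  push_cast
  rw [ZMod.natCast_zmod_val]

/-- the quadratic character with complex values -/
private def qc (p : ℕ) [Fact p.Prime] : MulChar (ZMod p) ℂ :=
  (quadraticChar (ZMod p)).ringHomComp (Int.castRingHom ℂ)

private lemma qc_apply (p : ℕ) [Fact p.Prime] (x : ZMod p) :
    qc p x = ((quadraticChar (ZMod p) x : ℤ) : ℂ) := rfl

private lemma qc_norm_le (p : ℕ) [Fact p.Prime] (x : ZMod p) : ‖qc p x‖ ≤ 1 := by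
  rw [qc_apply]
  by_cases hx : x = 0
  · rw [hx]
    simp
  · rcases quadraticChar_dichotomy hx with h | h <;> rw [h] <;> simp

private lemma qc_norm (p : ℕ) [Fact p.Prime] (x : ZMod p) (hx : x ≠ 0) : ‖qc p x‖ = 1 := by
  rw [qc_apply]
  rcases quadraticChar_dichotomy hx with h | h <;> rw [h] <;> simp

private lemma quad_sum (p : ℕ) [Fact p.Prime] (hp : p ≠ 2) (c : ZMod p) :
    ∑ v : ZMod p, (ZMod.stdAddChar (c * v ^ 2) : ℂ) =
      (if c = 0 then (p : ℂ) else 0) + qc p c * gaussSum (qc p) ZMod.stdAddChar := by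
  classical
  have hchar : ringChar (ZMod p) ≠ 2 := by
    rw [ZMod.ringChar_zmod_n]
    exact hp
  have h1 : ∑ v : ZMod p, (ZMod.stdAddChar (c * v ^ 2) : ℂ) =
      ∑ t : ZMod p, (1 + qc p t) * ZMod.stdAddChar (c * t) := by
    calc ∑ v : ZMod p, (ZMod.stdAddChar (c * v ^ 2) : ℂ) =
          ∑ t : ZMod p, ∑ v ∈ univ.filter (fun v : ZMod p => v ^ 2 = t),
            (ZMod.stdAddChar (c * v ^ 2) : ℂ) := by
          rw [Finset.sum_fiberwise]
      _ = ∑ t : ZMod p, (1 + qc p t) * ZMod.stdAddChar (c * t) := by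
          refine Finset.sum_congr rfl fun t _ => ?_
          rw [Finset.sum_congr rfl (g := fun _ => (ZMod.stdAddChar (c * t) : ℂ)) (fun v hv => by
            rw [(mem_filter.mp hv).2]), Finset.sum_const, nsmul_eq_mul]
          congr 1
          have h := quadraticChar_card_sqrts hchar t
          have h2 : (univ.filter (fun v : ZMod p => v ^ 2 = t)) = {x : ZMod p | x ^ 2 = t}.toFinset := by
            ext x
            simp
          rw [h2, qc_apply]
          have h3 : (({x : ZMod p | x ^ 2 = t}.toFinset.card : ℤ) : ℂ) =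
            ((quadraticChar (ZMod p) t + 1 : ℤ) : ℂ) := by rw [h]
          push_cast at h3
          rw [h3]
          ring
  rw [h1]
  simp_rw [add_mul, one_mul]
  rw [Finset.sum_add_distrib]
  congr 1
  · have h := AddChar.sum_mulShift c (ZMod.isPrimitive_stdAddChar p)
    rw [ZMod.card] at h
    have h' : (if c = 0 then (p : ℂ) else 0) = ((if c = 0 then p else 0 : ℕ) : ℂ) := by
      split_ifs <;> simp
    rw [h', ← h]
    exact Finset.sum_congr rfl fun t _ => by rw [mul_comm]
  · by_cases hc : c = 0
    · rw [hc]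
      simp only [zero_mul, AddChar.map_zero_eq_one, mul_one]
      have h0 : qc p 0 = 0 := by
        rw [qc_apply]
        simp
      rw [h0, zero_mul]
      have hne : qc p ≠ 1 := by
        intro h
        have h2 := quadraticChar_ne_one hchar
        apply h2
        ext x
        have h3 : qc p (x : ZMod p) = 1 := by rw [h, MulChar.one_apply_coe]
        rw [qc_apply] at h3
        rw [MulChar.one_apply_coe]
        exact_mod_cast h3
      exact MulChar.sum_eq_zero_of_ne_one hne
    · unfold gaussSum
      rw [Finset.mul_sum]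
      refine Fintype.sum_equiv (Equiv.mulLeft₀ c hc) _ _ fun t => ?_
      show qc p t * ZMod.stdAddChar (c * t) = qc p c * (qc p (c * t) * ZMod.stdAddChar (c * t))
      rw [map_mul (qc p) c t]
      have h2 : qc p c * qc p c = 1 := by
        rw [qc_apply]
        have := quadraticChar_sq_one hc
        rw [sq] at this
        exact_mod_cast this
      linear_combination (-(qc p t * ZMod.stdAddChar (c * t))) * h2

private lemma gauss_norm (p : ℕ) [Fact p.Prime] (hp : p ≠ 2) :
    ‖gaussSum (qc p) (ZMod.stdAddChar (N := p))‖ = Real.sqrt p := by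
  classical
  have hchar : ringChar (ZMod p) ≠ 2 := by
    rw [ZMod.ringChar_zmod_n]
    exact hp
  have hne : qc p ≠ 1 := by
    intro h
    have h2 := quadraticChar_ne_one hchar
    apply h2
    ext x
    have h3 : qc p (x : ZMod p) = 1 := by rw [h, MulChar.one_apply_coe]
    rw [qc_apply] at h3
    rw [MulChar.one_apply_coe]
    exact_mod_cast h3
  have hq : (qc p).IsQuadratic := (quadraticChar_isQuadratic (ZMod p)).comp _
  have h := gaussSum_sq hne hq (ZMod.isPrimitive_stdAddChar p)
  have h2 : ‖gaussSum (qc p) (ZMod.stdAddChar (N := p))‖ ^ 2 = p := by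
    rw [← norm_pow, h, norm_mul, qc_norm p (-1) (by simp), one_mul, ZMod.card,
      Complex.norm_natCast]
  rw [← h2, Real.sqrt_sq (norm_nonneg _)]

theorem ks_CU : T_CU := by
  intro p a b hp hp5 ha
  have : Fact p.Prime := ⟨hp⟩
  have hp2 : p ≠ 2 := by omega
  classical
  refine ⟨fun x => qc p (x : ZMod p), fun x => qc_norm_le p _, ?_, ?_⟩
  · intro a b u hu
    have hu0 : (u : ZMod p) ≠ 0 := by
      intro h
      exact hu ((ZMod.intCast_zmod_eq_zero_iff_dvd u p).mp h)
    have h1 : qc p (u : ZMod p) * SW 3 p (fun x => qc p (x : ZMod p)) (a * u ^ 3) (b * u) =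
        SW 3 p (fun x => qc p (x : ZMod p)) a b := by
      rw [SW_eq, SW_eq, Finset.mul_sum]
      refine Fintype.sum_equiv (Equiv.mulLeft₀ (u : ZMod p) hu0) _ _ fun y => ?_
      show qc p (u : ZMod p) * (qc p ((y.val : ℕ) : ZMod p) * _) =
        qc p ((((u : ZMod p) * y).val : ℕ) : ZMod p) *
          ZMod.stdAddChar ((a : ZMod p) * ((u : ZMod p) * y) ^ 3 + (b : ZMod p) * ((u : ZMod p) * y))
      rw [ZMod.natCast_zmod_val, ZMod.natCast_zmod_val, map_mul, ← mul_assoc]
      congr 2
      push_cast
      ring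
    rw [← h1, norm_mul, qc_norm p _ hu0, one_mul]
  · have ha0 : (a : ZMod p) ≠ 0 := by
      intro h
      exact ha ((ZMod.intCast_zmod_eq_zero_iff_dvd a p).mp h)
    have h20 : (2 : ZMod p) ≠ 0 := by
      intro h
      have h' : ((2 : ℕ) : ZMod p) = 0 := by exact_mod_cast h
      rw [ZMod.natCast_eq_zero_iff] at h'
      exact absurd (Nat.le_of_dvd (by omega) h') (by omega)
    have h60 : (6 : ZMod p) ≠ 0 := by
      intro h
      have h' : ((6 : ℕ) : ZMod p) = 0 := by exact_mod_cast h
      rw [ZMod.natCast_eq_zero_iff] at h'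
      have h5 : p ∣ 2 * 3 := by norm_num; exact h'
      rcases (Nat.Prime.dvd_mul hp).mp h5 with h | h
      · exact absurd (Nat.le_of_dvd (by omega) h) (by omega)
      · exact absurd (Nat.le_of_dvd (by omega) h) (by omega)
    set g := gaussSum (qc p) (ZMod.stdAddChar (N := p)) with hg
    have key : SW 3 p (fun _ => 1) a b ^ 2 = p + qc p (6 * (a : ZMod p)) * g *
        SW 3 p (fun x => qc p (x : ZMod p)) (2 * a) (2 * b) := by
      rw [SW_eq, SW_eq]
      simp only [one_mul, ZMod.natCast_zmod_val]
      rw [sq, Finset.sum_mul_sum, ← Fintype.sum_prod_type']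
      -- change of variables
      let E : ZMod p × ZMod p ≃ ZMod p × ZMod p :=
        { toFun := fun z => (z.1 + z.2, z.1 - z.2)
          invFun := fun z => ((z.1 + z.2) / 2, (z.1 - z.2) / 2)
          left_inv := fun z => by
            refine Prod.ext ?_ ?_
            · show ((z.1 + z.2) + (z.1 - z.2)) / 2 = z.1
              field_simp
              ring
            · show ((z.1 + z.2) - (z.1 - z.2)) / 2 = z.2
              field_simp
              ring
          right_inv := fun z => by
            refine Prod.ext ?_ ?_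
            · show (z.1 + z.2) / 2 + (z.1 - z.2) / 2 = z.1
              field_simp
              ring
            · show (z.1 + z.2) / 2 - (z.1 - z.2) / 2 = z.2
              field_simp
              ring }
      rw [← Equiv.sum_comp E]
      have h1 : ∀ z : ZMod p × ZMod p,
          (ZMod.stdAddChar ((a : ZMod p) * (E z).1 ^ 3 + (b : ZMod p) * (E z).1) : ℂ) *
            ZMod.stdAddChar ((a : ZMod p) * (E z).2 ^ 3 + (b : ZMod p) * (E z).2) =
          ZMod.stdAddChar (((2 * a : ℤ) : ZMod p) * z.1 ^ 3 + ((2 * b : ℤ) : ZMod p) * z.1) *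
            ZMod.stdAddChar ((6 * (a : ZMod p) * z.1) * z.2 ^ 2) := by
        intro z
        rw [← AddChar.map_add_eq_mul, ← AddChar.map_add_eq_mul]
        congr 1
        show (a : ZMod p) * (z.1 + z.2) ^ 3 + (b : ZMod p) * (z.1 + z.2) +
          ((a : ZMod p) * (z.1 - z.2) ^ 3 + (b : ZMod p) * (z.1 - z.2)) = _
        push_cast
        ring
      simp_rw [h1]
      rw [Fintype.sum_prod_type]
      simp only
      simp_rw [← Finset.mul_sum, quad_sum p hp2, mul_add]
      rw [Finset.sum_add_distrib, Finset.mul_sum]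
      congr 1
      · have : ∀ u : ZMod p, (6 * (a : ZMod p) * u = 0) ↔ u = 0 := by
          intro u
          rw [mul_eq_zero, mul_eq_zero]
          tauto
        simp only [this, mul_ite, mul_zero, Finset.sum_ite_eq', mem_univ, if_true]
        simp
      · refine Finset.sum_congr rfl fun u _ => ?_
        rw [map_mul (qc p) (6 * (a : ZMod p)) u]
        ring
    have h2 : ‖SW 3 p (fun _ => 1) a b‖ ^ 2 = ‖SW 3 p (fun _ => 1) a b ^ 2‖ := (norm_pow _ _).symm
    rw [h2, key]
    refine (norm_add_le _ _).trans ?_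
    rw [Complex.norm_natCast, norm_mul, norm_mul, qc_norm p _ (mul_ne_zero h60 ha0), one_mul, hg,
      gauss_norm p hp2]

end Pool.Agent.H55.KS
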